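import Pool.Agent.Helper56.HD.BagFinal

/-!
# MP_950ff6_co: graphs whose complement has maximum degree at most `c n ^ (1 - 1 / b ^ 2)`

For every `b ≥ 1` there is a constant `C` such that every graph on `n` vertices whose complement has
maximum degree `Δ` with `C * Δ ^ (b ^ 2) ≤ n ^ (b ^ 2 - 1)` has, for every `k ≤ ⌈n / b⌉`, the complete
graph `K_k` as a minor whose branch sets are cliques with at most `b` vertices, and contains a scheme of
order `k`.
-/

set_option autoImplicit false

namespace Pool.Agent.Results.MP_950ff6_co.CliqueBags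

/-- `G` contains a scheme of order `r`: distinct vertices `x i` and paths `P i j` from `x i` to
`x j`, `i, j < r`, such that `P i j` and `P h l` have no common vertex if `{i, j}` and `{h, l}` are
disjoint. -/
def ContainsScheme {V : Type} (G : SimpleGraph V) (r : ℕ) : Prop :=
  ∃ (x : Fin r → V) (P : (i j : Fin r) → G.Walk (x i) (x j)),
    Function.Injective x ∧ (∀ i j, (P i j).IsPath) ∧
    ∀ i j h l : Fin r, i ≠ h → i ≠ l → j ≠ h → j ≠ l →
      ∀ v : V, v ∈ (P i j).support → v ∉ (P h l).support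

/-- `G` contains `r` pairwise disjoint nonempty cliques with at most `b` vertices each, any two of
them joined by an edge (so the complete graph `K_r` is a minor of `G`). -/
def CliqueMinor {V : Type} (G : SimpleGraph V) (r b : ℕ) : Prop :=
  ∃ B : Fin r → Set V, (∀ i, (B i).Nonempty ∧ (B i).ncard ≤ b ∧ G.IsClique (B i)) ∧
    ∀ i j, i ≠ j → Disjoint (B i) (B j) ∧ ∃ u ∈ B i, ∃ v ∈ B j, G.Adj u v

open Classical in
/-- For every `b ≥ 1` there is a constant `C` such that every graph on `n` vertices whose complement has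
maximum degree `Δ` with `C * Δ ^ (b ^ 2) ≤ n ^ (b ^ 2 - 1)` has, for every `k ≤ ⌈n / b⌉`, the minor `K_k`,
with branch sets which are cliques of at most `b` vertices, and a scheme of order `k`. -/
theorem result (b : ℕ) (hb : 1 ≤ b) : ∃ C : ℕ, ∀ (V : Type) [Fintype V] (G : SimpleGraph V),
    C * Gᶜ.maxDegree ^ (b ^ 2) ≤ Fintype.card V ^ (b ^ 2 - 1) →
    ∀ k ≤ ⌈(Fintype.card V : ℚ) / b⌉₊, CliqueMinor G k b ∧ ContainsScheme G k := by
  obtain ⟨C, hC⟩ := Helper56.HD.Multi.ceil_bags b hb
  refine ⟨C, ?_⟩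
  intro V _ G hCD k hk
  have hb0 : (0 : ℚ) < b := by exact_mod_cast hb
  have hk' : b * k < Fintype.card V + b := by
    rcases Nat.eq_zero_or_pos k with rfl | hk0
    · omega
    · have h1 : ((k - 1 : ℕ) : ℚ) < (Fintype.card V : ℚ) / b := Nat.lt_ceil.1 (by omega)
      rw [lt_div_iff₀ hb0] at h1
      have h2 : (k - 1) * b < Fintype.card V := by exact_mod_cast h1
      have h3 : b * k = (k - 1) * b + b := by
        obtain ⟨j, rfl⟩ : ∃ j, k = j + 1 := ⟨k - 1, by omega⟩
        simp only [Nat.add_sub_cancel]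
        ring
      omega
  have h4 : ∀ v : V, {w | Gᶜ.Adj v w}.ncard ≤ Gᶜ.maxDegree := by
    intro v
    have e : {w | Gᶜ.Adj v w}.ncard = Gᶜ.degree v := by
      rw [Set.ncard_eq_toFinset_card', ← SimpleGraph.card_neighborFinset_eq_degree]
      congr 1
    rw [e]
    exact Gᶜ.degree_le_maxDegree v
  obtain ⟨B, x, h1, h2, h3, h4, h5⟩ := hC V G k _ h4 hCD hk'
  obtain ⟨P, h6, h7, h8⟩ := Helper56.HD.Multi.scheme_of_cliques B x h1 h3 h4 h5
  exact ⟨⟨B, fun i => ⟨⟨x i, h1 i⟩, h2 i, h3 i⟩, fun i j hij => ⟨h4 i j hij, h5 i j hij⟩⟩,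
    ⟨x, P, h6, fun i j => (h7 i j).1, h8⟩⟩

end Pool.Agent.Results.MP_950ff6_co.CliqueBags
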