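import Pool.Agent.Helper70.CC.Final

/-!
# MP_950ff6_co: critical cliques whose common neighbourhood is nearly complete

Let `Q` be a critical clique of the `k`-chromatic graph `G`: `G - Q` is `(k - |Q|)`-colourable. If every
common neighbour of `Q` is adjacent to all the other common neighbours but at most `D`, and there are more
than `k - |Q| + 2 D ^ 2` of them or `D ≤ 1`, then `G` contains a scheme of order `k`.
-/

set_option autoImplicit false

namespace Pool.Agent.Results.MP_950ff6_co.CriticalCliqueSchemes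

/-- `G` contains a scheme of order `r`: distinct vertices `x i` and paths `P i j` from `x i` to
`x j`, `i, j < r`, such that `P i j` and `P h l` have no common vertex if `{i, j}` and `{h, l}` are
disjoint. -/
def ContainsScheme {V : Type} (G : SimpleGraph V) (r : ℕ) : Prop :=
  ∃ (x : Fin r → V) (P : (i j : Fin r) → G.Walk (x i) (x j)),
    Function.Injective x ∧ (∀ i j, (P i j).IsPath) ∧
    ∀ i j h l : Fin r, i ≠ h → i ≠ l → j ≠ h → j ≠ l →
      ∀ v : V, v ∈ (P i j).support → v ∉ (P h l).support

/-- `Q` is a critical clique of the `k`-chromatic graph `G`: a nonempty clique such that `G - Q` is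
`(k - |Q|)`-colourable (a critical vertex if `|Q| = 1`, a double-critical edge if `|Q| = 2`). -/
def CriticalClique {V : Type} (G : SimpleGraph V) (k : ℕ) (Q : Set V) : Prop :=
  Q.Nonempty ∧ G.IsClique Q ∧ (G.induce Qᶜ).Colorable (k - Q.ncard)

/-- The common neighbours of the vertices of `Q`. -/
def commonNbrs {V : Type} (G : SimpleGraph V) (Q : Set V) : Set V := {w | ∀ v ∈ Q, G.Adj v w}

/-- Let `Q` be a critical clique of the `k`-chromatic graph `G` such that every common neighbour of `Q`
has at most `D` non-neighbours among the other ones. If `D ≤ 1`, or `Q` has exactly `k - |Q|` or more than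
`k - |Q| + 2 D ^ 2` common neighbours, then `G` contains a scheme of order `k`. -/
theorem result (V : Type) [Finite V] (G : SimpleGraph V) (k D : ℕ) (hG : G.chromaticNumber = k)
    (Q : Set V) (hQ : CriticalClique G k Q)
    (hD : ∀ w ∈ commonNbrs G Q, {u ∈ commonNbrs G Q | u ≠ w ∧ ¬ G.Adj w u}.ncard ≤ D)
    (h : D ≤ 1 ∨ (commonNbrs G Q).ncard = k - Q.ncard ∨
      k - Q.ncard + 2 * D ^ 2 < (commonNbrs G Q).ncard) :
    ContainsScheme G k := by
  classical
  have _ := Fintype.ofFinite V
  obtain ⟨hne, hcl, hcol⟩ := hQ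
  have hqk : Q.ncard ≤ k := by
    have h1 : G.Colorable k := SimpleGraph.chromaticNumber_le_iff_colorable.1 hG.le
    rw [Set.ncard_eq_toFinset_card' Q]
    exact SimpleGraph.IsClique.card_le_of_colorable (by simpa using hcl) h1
  have hpos : 0 < Q.ncard := (Set.ncard_pos (Set.toFinite Q)).2 hne
  have hK : ¬ (G.induce Set.univ).Colorable (k - Q.ncard + Q.ncard - 1) := by
    rintro ⟨C⟩
    have h1 : G.Colorable (k - 1) := by
      rw [show k - 1 = k - Q.ncard + Q.ncard - 1 by omega]
      exact ⟨SimpleGraph.Coloring.mk (fun u => C ⟨u, Set.mem_univ u⟩) (fun {a b} hab =>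
        C.valid (v := ⟨a, Set.mem_univ a⟩) (w := ⟨b, Set.mem_univ b⟩) hab)⟩
    have h2 := h1.chromaticNumber_le
    rw [hG] at h2
    have h3 : k ≤ k - 1 := by exact_mod_cast h2
    omega
  have hN : commonNbrs G Q = {w ∈ (Set.univ : Set V) | ∀ v ∈ Q, G.Adj v w} := by
    ext w
    simp [commonNbrs]
  have hbig : D ≤ 1 ∨ (commonNbrs G Q).ncard = k - Q.ncard ∨
      (D + 1) * (k - Q.ncard) + D * (2 * D ^ 2 + 1) < (D + 1) * (commonNbrs G Q).ncard := by
    rcases h with h | h | h
    · exact Or.inl h
    · exact Or.inr (Or.inl h)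
    · refine Or.inr (Or.inr ?_)
      generalize k - Q.ncard = K at h ⊢
      generalize (commonNbrs G Q).ncard = n at h ⊢
      have h1 : (D + 1) * (K + 2 * D ^ 2 + 1) ≤ (D + 1) * n := Nat.mul_le_mul_left _ h
      have h2 : (D + 1) * (K + 2 * D ^ 2 + 1) = (D + 1) * K + D * (2 * D ^ 2 + 1) + (2 * D ^ 2 + 1) := by
        ring
      omega
  have key := Helper70.CC.final_free G Set.univ Q D (Set.subset_univ Q) hne hcl hK
    (by rw [← Set.compl_eq_univ_sdiff]; exact hcol) _ hN hD hbig
  rw [Nat.sub_add_cancel hqk] at key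
  obtain ⟨B, x, P, _, _, h3, h4, h5⟩ := key
  exact ⟨x, P, h3, fun i j => (h4 i j).1, h5⟩

end Pool.Agent.Results.MP_950ff6_co.CriticalCliqueSchemes
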