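import Pool.Agent.Helper54.Scheme.Final

set_option autoImplicit false

/-!
# MP_950ff6_co: schemes in `k`-chromatic graphs of degeneracy `d`

Every `k`-chromatic graph whose degeneracy is `k - 1 + c` contains a scheme of order `k - c`.
-/

namespace Pool.Agent.Results.MP_950ff6_co.DegenerateSchemes

/-- `G` contains a scheme of order `r`: distinct vertices `x i` and paths `P i j` from `x i` to
`x j`, `i, j < r`, such that `P i j` and `P h l` have no common vertex if `{i, j}` and `{h, l}` are
disjoint. -/
def ContainsScheme {V : Type} (G : SimpleGraph V) (r : ℕ) : Prop :=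
  ∃ (x : Fin r → V) (P : (i j : Fin r) → G.Walk (x i) (x j)),
    Function.Injective x ∧ (∀ i j, (P i j).IsPath) ∧
    ∀ i j h l : Fin r, i ≠ h → i ≠ l → j ≠ h → j ≠ l →
      ∀ v : V, v ∈ (P i j).support → v ∉ (P h l).support

/-- `G` is `d`-degenerate: every nonempty set `U` of vertices contains a vertex with at most `d`
neighbours in `U`. -/
def Degenerate {V : Type} (G : SimpleGraph V) (d : ℕ) : Prop :=
  ∀ U : Set V, U.Nonempty → ∃ u ∈ U, {w ∈ U | G.Adj u w}.ncard ≤ d

/-- `v` is a critical vertex of the graph `G`, which is not `K`-colourable: `G - v` is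
`K`-colourable. -/
def Critical {V : Type} (G : SimpleGraph V) (K : ℕ) (v : V) : Prop :=
  (G.induce {v}ᶜ).Colorable K

/-- Every `k`-chromatic graph, `k ≥ 2`, which is `d`-degenerate or has a critical vertex of degree
at most `d` contains a scheme of order `2 k - 1 - d` and one of order `(k - 1)² / (4 d) + 1`
(rounded down). -/
theorem result (V : Type) [Finite V] (G : SimpleGraph V) (k d : ℕ) (hk : 2 ≤ k)
    (hG : G.chromaticNumber = k)
    (hd : Degenerate G d ∨ ∃ v, Critical G (k - 1) v ∧ {w | G.Adj v w}.ncard ≤ d) :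
    ContainsScheme G (2 * k - 1 - d) ∧ ContainsScheme G ((k - 1) ^ 2 / (4 * d) + 1) := by
  have hK : ¬ G.Colorable (k - 1) := by
    intro h
    have h1 := h.chromaticNumber_le
    rw [hG] at h1
    have h2 : k ≤ k - 1 := by exact_mod_cast h1
    omega
  have key : ∀ q : ℕ, Helper54.Scheme.Cond (k - 1) d q → ContainsScheme G (q + 1) := by
    intro q hc
    have h : Helper54.Scheme.HasScheme G (q + 1) := by
      rcases hd with hd | ⟨v, hv, hvd⟩
      · exact Helper54.Scheme.degenerate G (k - 1) d q hc hK hd
      · refine Helper54.Scheme.critical_vertex G (k - 1) d q hc Set.univ v ?_ ?_ ?_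
        · intro h
          apply hK
          obtain ⟨C⟩ := h
          exact ⟨SimpleGraph.Coloring.mk (fun u => C ⟨u, Set.mem_univ u⟩) (fun {a b} hab =>
            C.valid (v := ⟨a, Set.mem_univ a⟩) (w := ⟨b, Set.mem_univ b⟩) hab)⟩
        · rw [← Set.compl_eq_univ_sdiff]
          exact hv
        · simpa using hvd
    obtain ⟨B, x, P, _, _, h3, h4, h5⟩ := h
    exact ⟨x, P, h3, fun i j => (h4 i j).1, h5⟩
  refine ⟨?_, key _ (Or.inr (Or.inr ⟨by omega, Nat.mul_div_le _ _⟩))⟩
  rcases Nat.lt_or_ge d (2 * k - 1) with h | h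
  · have e : 2 * k - 1 - d = (2 * (k - 1) - d) + 1 := by omega
    rw [e]
    exact key _ (Or.inl (by omega))
  · have e : 2 * k - 1 - d = 0 := by omega
    rw [e]
    exact ⟨fun i => i.elim0, fun i => i.elim0, fun i => i.elim0, fun i => i.elim0,
      fun i => i.elim0⟩

end Pool.Agent.Results.MP_950ff6_co.DegenerateSchemes
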