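import Pool.Agent.Helper56.HD.Final

/-!
# MP_950ff6_co: Hadwiger's conjecture and Q1 for very dense graphs

Let `n` be the number of vertices, `ω` the clique number and `k` the chromatic number of `G`, and let
`Δ` be the maximum degree of the complement. If `2 ^ 33 * Δ ^ 4 ≤ (n - ω) ^ 3`, then `G` has `K_k` as a
minor whose branch sets are cliques with one or two vertices, and it contains a scheme of order `k`.
-/

set_option autoImplicit false

namespace Pool.Agent.Results.MP_950ff6_co.SparseComplement

/-- `G` contains a scheme of order `r`: distinct vertices `x i` and paths `P i j` from `x i` to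
`x j`, `i, j < r`, such that `P i j` and `P h l` have no common vertex if `{i, j}` and `{h, l}` are
disjoint. -/
def ContainsScheme {V : Type} (G : SimpleGraph V) (r : ℕ) : Prop :=
  ∃ (x : Fin r → V) (P : (i j : Fin r) → G.Walk (x i) (x j)),
    Function.Injective x ∧ (∀ i j, (P i j).IsPath) ∧
    ∀ i j h l : Fin r, i ≠ h → i ≠ l → j ≠ h → j ≠ l →
      ∀ v : V, v ∈ (P i j).support → v ∉ (P h l).support

/-- `G` contains `r` pairwise disjoint nonempty cliques with at most `b` vertices each, any two of
them joined by an edge (so the complete graph `K_r` is a minor of `G`). -/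
def CliqueMinor {V : Type} (G : SimpleGraph V) (r b : ℕ) : Prop :=
  ∃ B : Fin r → Set V, (∀ i, (B i).Nonempty ∧ (B i).ncard ≤ b ∧ G.IsClique (B i)) ∧
    ∀ i j, i ≠ j → Disjoint (B i) (B j) ∧ ∃ u ∈ B i, ∃ v ∈ B j, G.Adj u v

open Classical in
/-- If `2 ^ 33 * Δ ^ 4 ≤ (n - ω) ^ 3`, where `n` is the number of vertices and `ω` the clique number of
`G` and `Δ` the maximum degree of the complement, then `G`, with chromatic number `k`, has the minor
`K_k`, with branch sets which are cliques of one or two vertices, and a scheme of order `k`. -/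
theorem result (V : Type) [Fintype V] (G : SimpleGraph V) (k : ℕ) (hk : G.chromaticNumber = k)
    (h : 2 ^ 33 * Gᶜ.maxDegree ^ 4 ≤ (Fintype.card V - G.cliqueNum) ^ 3) :
    CliqueMinor G k 2 ∧ ContainsScheme G k := by
  have h1 : ∀ C : Finset V, G.IsClique C →
      C.card + (Fintype.card V - G.cliqueNum) ≤ Fintype.card V := by
    intro C hC
    have h2 : C.card ≤ G.cliqueNum := SimpleGraph.IsClique.card_le_cliqueNum (tc := hC)
    have h3 : C.card ≤ Fintype.card V := Finset.card_le_univ C
    omega
  have h4 : ∀ v : V, {w | Gᶜ.Adj v w}.ncard ≤ Gᶜ.maxDegree := by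
    intro v
    have e : {w | Gᶜ.Adj v w}.ncard = Gᶜ.degree v := by
      rw [Set.ncard_eq_toFinset_card', ← SimpleGraph.card_neighborFinset_eq_degree]
      congr 1
    rw [e]
    exact Gᶜ.degree_le_maxDegree v
  obtain ⟨B, x, P, h5, h6, h7, h8, h9⟩ :=
    Helper56.HD.final (Helper56.HD.target_of_large G k _ _ hk h1 h4 h)
  exact ⟨⟨B, fun i => ⟨⟨x i, (h5 i).1⟩, (h5 i).2.1, (h5 i).2.2⟩, h6⟩,
    ⟨x, P, h7, fun i j => (h8 i j).1, h9⟩⟩

end Pool.Agent.Results.MP_950ff6_co.SparseComplement
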